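import Pool.Agent.Lib.MP_5ddd96_lc.H38.Meas

/-!
Two commuting continuous maps of a Polish space whose generated equivalence relation is
hypersmooth almost everywhere for every Borel probability measure but is not hypersmooth.
-/

set_option autoImplicit false

namespace Pool.Agent.Results.MP_5ddd96_lc.CommutingShifts

open Pool.Agent.Lib.MP_5ddd96_lc.H38

theorem result : ∃ (Z : Type) (_ : TopologicalSpace Z) (_ : PolishSpace Z) (_ : MeasurableSpace Z)
    (_ : BorelSpace Z) (T S : Z → Z), Continuous T ∧ Continuous S ∧ Function.Commute T S ∧
      MeasureHypersmooth (Gen T S) ∧ ¬ Hypersmooth (Gen T S) := by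
  have hc : IsClosed {x : ℕ × ℕ → ℕ | Function.Injective x} := by
    simp only [Function.Injective, Set.ofPred_forall]
    refine isClosed_iInter fun a => isClosed_iInter fun b => ?_
    by_cases h : a = b
    · simp [h]
    · simp only [h, imp_false]
      have hab : Continuous fun x : ℕ × ℕ → ℕ => (x a, x b) :=
        (continuous_apply a).prodMk (continuous_apply b)
      exact (isClosed_discrete {p : ℕ × ℕ | ¬ p.1 = p.2}).preimage hab
  have hs : ∀ a, Continuous (shift a) := fun a => by
    have : Continuous fun (x : Arr) (q : ℕ × ℕ) => x.1 (q + a) :=
      continuous_pi fun q => (continuous_apply (q + a)).comp continuous_subtype_val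
    exact this.subtype_mk _
  exact ⟨Arr, inferInstance, hc.polishSpace, inferInstance, inferInstance, shift (1, 0),
    shift (0, 1), hs _, hs _, fun x => by rw [shift_shift, shift_shift, add_comm],
    measure_hypersmooth, not_hypersmooth⟩

end Pool.Agent.Results.MP_5ddd96_lc.CommutingShifts
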