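import Pool.Agent.Lib.MP_5ddd96_lc.H74Fm

set_option autoImplicit false

namespace Pool.Agent.Results.MP_5ddd96_lc.DensityHyperfinite

open Filter Topology Pool.Agent.Lib.MP_5ddd96_lc.H74

/-- A measure-hyperfinite `Δ¹₁(o)` equivalence relation on Baire space is the pointwise limit in
density of a uniformly `Δ¹₁(o)` array of finite subequivalence relations. -/
theorem result (o : ℕ → ℕ) (E : (ℕ → ℕ) → (ℕ → ℕ) → Prop) (hE : Equivalence E)
    (hD : Delta11 o (fun _ : Unit => E)) (hm : MeasureHyperfinite E) :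
    ∃ N : ℕ → ℕ, Computable N ∧ (∀ k, 0 < N k) ∧
      ∃ P : ℕ × ℕ → (ℕ → ℕ) → (ℕ → ℕ) → Prop, Delta11 o P ∧
        (∀ p, FiniteEquivOn Set.univ (P p)) ∧ (∀ p x y, P p x y → E x y) ∧
        ∀ x y, E x y → Tendsto
          (fun k => (({j | j < N k ∧ ¬ P (k, j) x y}.ncard : ℝ) / (N k : ℝ))) atTop (𝓝 0) := by
  classical
  obtain ⟨N, h1, h2, P, h3, h4, h5, h6⟩ := main' o E hE hD hm
  refine ⟨N, h1, h2, P, h3, h4, h5, fun x y h => (h6 x y h).congr fun k => ?_⟩
  rw [← Set.ncard_coe_finset]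
  congr 3
  ext j
  simp

end Pool.Agent.Results.MP_5ddd96_lc.DensityHyperfinite
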