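import Pool.Agent.Lib.MP_5ddd96_lc.H38.Eff2

/-!
A lightface `Δ¹₁` hypersmooth equivalence relation on Baire space that is not the union of an
increasing, uniformly `Δ¹₁` sequence of smooth equivalence relations.
-/

set_option autoImplicit false

namespace Pool.Agent.Results.MP_5ddd96_lc.EffHypersmooth

open Pool.Agent.EffHyp Pool.Agent.Lib.MP_5ddd96_lc.H38

theorem result : ∃ E : Baire → Baire → Prop, Equivalence E ∧ Delta11 (fun _ => E) ∧
    Hypersmooth E ∧ ¬ ∃ F : ℕ → Baire → Baire → Prop, Delta11 F ∧ (∀ n, Smooth (F n)) ∧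
      Monotone F ∧ ∀ x y, E x y ↔ ∃ n, F n x y := Pool.Agent.EffHyp.H38.main2

end Pool.Agent.Results.MP_5ddd96_lc.EffHypersmooth
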