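import Pool.Agent.Lib.MP_5ddd96_lc.W5.All2

/-!
Effective hyperfiniteness of the orbit relations of `Δ¹₁(o)` actions of groups that locally
embed in the class `Cls`.
-/

set_option autoImplicit false

namespace Pool.Agent.Results.MP_5ddd96_lc.TameGroupActions

open Pool.Agent.Lib.MP_5ddd96_lc.H74 Pool.Agent.Lib.MP_5ddd96_lc.W5

theorem result (o : ℕ → ℕ) (Γ : Type) [Group Γ] (s : ℕ → Γ)
    (hs : Subgroup.closure (Set.range s) = ⊤) (X : Set (ℕ → ℕ)) [MulAction Γ X]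
    (hX : Delta11 o (fun (_ : Unit) x _ => x ∈ X))
    (hgen : Sigma11 o (fun (i : ℕ) x y =>
      ∃ hx : x ∈ X, ((s i • (⟨x, hx⟩ : X) : X) : ℕ → ℕ) = y))
    (hΓ : ∀ Δ : Subgroup Γ, Δ.FG → ∃ (G : Type) (_ : Group G) (N : Subgroup G) (f : Δ →* G),
      Function.Injective f ∧ Cls G N ∧ ∀ (d : Δ) (x : X), (d : Γ) • x = x → f d ∈ N) :
    ∃ F : ℕ → (ℕ → ℕ) → (ℕ → ℕ) → Prop, Delta11 o F ∧ (∀ n, FiniteEquivOn X (F n)) ∧
      (∀ n x y, F n x y → F (n + 1) x y) ∧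
      ∀ x y, (∃ (hx : x ∈ X) (γ : Γ), ((γ • (⟨x, hx⟩ : X) : X) : ℕ → ℕ) = y) ↔ ∃ n, F n x y :=
  main2 o Γ s hs X hX hgen hΓ

end Pool.Agent.Results.MP_5ddd96_lc.TameGroupActions
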